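import Mathlib

namespace Pool.Agent.Results.MP_bd7f44_an.NotConvex

open Filter Topology Set

/-- effective domain -/
def dom {n : ℕ} (f : EuclideanSpace ℝ (Fin n) → EReal) : Set (EuclideanSpace ℝ (Fin n)) :=
  {x | f x ≠ ⊤}

/-- gradient of the finite part -/
noncomputable def grad {n : ℕ} (f : EuclideanSpace ℝ (Fin n) → EReal)
    (y : EuclideanSpace ℝ (Fin n)) : EuclideanSpace ℝ (Fin n) :=
  gradient (fun z => (f z).toReal) y

/-- proper, lower semicontinuous, convex, essentially smooth, essentially strictly convex -/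
def Legendre {n : ℕ} (f : EuclideanSpace ℝ (Fin n) → EReal) : Prop :=
  (∀ x, f x ≠ ⊥) ∧ (dom f).Nonempty ∧ LowerSemicontinuous f ∧
  Convex ℝ {p : EuclideanSpace ℝ (Fin n) × ℝ | f p.1 ≤ (p.2 : EReal)} ∧
  (interior (dom f)).Nonempty ∧
  (∀ x ∈ interior (dom f), DifferentiableAt ℝ (fun z => (f z).toReal) x) ∧
  (∀ x ∈ frontier (dom f), Tendsto (fun z => ‖grad f z‖) (𝓝[interior (dom f)] x) atTop) ∧
  (∀ S : Set (EuclideanSpace ℝ (Fin n)), Convex ℝ S →
    (∀ x ∈ S, x ∈ dom f ∧ ∃ g, ∀ z, f x + ((inner ℝ g (z - x) : ℝ) : EReal) ≤ f z) →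
    StrictConvexOn ℝ S (fun z => (f z).toReal))

/-- Bregman distance (used for x, y in the interior of the domain) -/
noncomputable def D {n : ℕ} (f : EuclideanSpace ℝ (Fin n) → EReal)
    (x y : EuclideanSpace ℝ (Fin n)) : ℝ :=
  (f x).toReal - (f y).toReal - inner ℝ (grad f y) (x - y)

/-- left Chebyshev subsets of the interior of the domain -/
def LeftCheb {n : ℕ} (f : EuclideanSpace ℝ (Fin n) → EReal)
    (C : Set (EuclideanSpace ℝ (Fin n))) : Prop :=
  C.Nonempty ∧ C ⊆ interior (dom f) ∧
    ∀ y ∈ interior (dom f), ∃! x, x ∈ C ∧ ∀ z ∈ C, D f x y ≤ D f z y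

noncomputable def g (x : EuclideanSpace ℝ (Fin 2)) : ℝ := Real.exp (x 0) + Real.exp (x 1)

theorem hg (y : EuclideanSpace ℝ (Fin 2)) :
    HasGradientAt g (WithLp.toLp 2 ![Real.exp (y 0), Real.exp (y 1)]) y := by
  rw [hasGradientAt_iff_hasFDerivAt]
  have h0 := ((EuclideanSpace.proj (𝕜 := ℝ) (0 : Fin 2)).hasFDerivAt (x := y)).exp
  have h1 := ((EuclideanSpace.proj (𝕜 := ℝ) (1 : Fin 2)).hasFDerivAt (x := y)).exp
  refine (h0.add h1).congr_fderiv ?_
  ext v
  simp [InnerProductSpace.toDual_apply_apply, PiLp.inner_apply, Fin.sum_univ_two, mul_comm]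

theorem sg : StrictConvexOn ℝ univ g := by
  refine ⟨convex_univ, fun x _ y _ hxy a b ha hb hab => ?_⟩
  have c := fun i : Fin 2 => convexOn_exp.2 (mem_univ (x i)) (mem_univ (y i)) ha.le hb.le hab
  have s := fun (i : Fin 2) (h : x i ≠ y i) =>
    strictConvexOn_exp.2 (mem_univ (x i)) (mem_univ (y i)) h ha hb hab
  have : x 0 ≠ y 0 ∨ x 1 ≠ y 1 := by
    by_contra h
    push Not at h
    apply hxy
    ext i
    fin_cases i
    · exact h.1
    · exact h.2
  have c0 := c 0
  have c1 := c 1
  simp only [g, smul_eq_mul, PiLp.add_apply, PiLp.smul_apply] at *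
  rcases this with h | h
  · have := s 0 h
    linarith
  · have := s 1 h
    linarith

theorem key {u v p q : ℝ} (hu : 0 < u) (hv : 0 < v) (h : Real.exp p + Real.exp q = 1)
    (hne : p ≠ Real.log (u / (u + v))) :
    u * p + v * q < u * Real.log (u / (u + v)) + v * Real.log (v / (u + v)) := by
  have hs : 0 < u + v := by positivity
  have h1 := Real.add_one_lt_exp (sub_ne_zero.mpr hne)
  have h2 := Real.add_one_le_exp (q - Real.log (v / (u + v)))
  rw [Real.exp_sub, Real.exp_log (by positivity)] at h1 h2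
  have e1 : u * (Real.exp p / (u / (u + v))) = (u + v) * Real.exp p := by field_simp
  have e2 : v * (Real.exp q / (v / (u + v))) = (u + v) * Real.exp q := by field_simp
  have h3 := mul_lt_mul_of_pos_left h1 hu
  have h4 := mul_le_mul_of_nonneg_left h2 hv.le
  rw [e1] at h3
  rw [e2] at h4
  have : (u + v) * Real.exp p + (u + v) * Real.exp q = u + v := by rw [← mul_add, h, mul_one]
  nlinarith

theorem result : ∃ f : EuclideanSpace ℝ (Fin 2) → EReal, Legendre f ∧
    ∃ C : Set (EuclideanSpace ℝ (Fin 2)), LeftCheb f C ∧ IsClosed C ∧ ¬ Convex ℝ C := by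
  have hd : dom (fun x => (g x : EReal)) = univ := by
    ext x; simp [dom]
  have hc : Continuous g := by
    unfold g; fun_prop
  have hgr : ∀ y, grad (fun x => (g x : EReal)) y =
      WithLp.toLp 2 ![Real.exp (y 0), Real.exp (y 1)] := fun y => by
    simp only [grad, EReal.toReal_coe]
    exact (hg y).gradient
  have pt : ∀ u v : ℝ, 0 < u → 0 < v →
      g (WithLp.toLp 2 ![Real.log (u / (u + v)), Real.log (v / (u + v))]) = 1 := by
    intro u v hu hv
    have hs : 0 < u + v := by positivity
    simp only [g, Matrix.cons_val_zero, Matrix.cons_val_one]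
    rw [Real.exp_log (by positivity), Real.exp_log (by positivity)]
    field_simp
  refine ⟨fun x => (g x : EReal), ⟨fun x => by simp, ?_, ?_, ?_, ?_, ?_, ?_, ?_⟩,
    {x | g x = 1}, ⟨⟨_, pt 1 1 one_pos one_pos⟩, ?_, ?_⟩, isClosed_eq hc continuous_const, ?_⟩
  · rw [hd]; exact univ_nonempty
  · exact (continuous_coe_real_ereal.comp hc).lowerSemicontinuous
  · have := sg.convexOn.convex_epigraph
    simpa [EReal.coe_le_coe_iff] using this
  · rw [hd]; simp
  · intro x _
    simpa using (hg x).differentiableAt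
  · rw [hd]; simp
  · intro S hS _
    simpa using sg.subset (subset_univ S) hS
  · rw [hd]; simp
  · intro y _
    set u := Real.exp (y 0)
    set v := Real.exp (y 1)
    have hu : 0 < u := Real.exp_pos _
    have hv : 0 < v := Real.exp_pos _
    have hD : ∀ z, g z = 1 → D (fun x => (g x : EReal)) z y =
        1 - g y - (u * z 0 + v * z 1) + (u * y 0 + v * y 1) := by
      intro z hz
      simp only [D, hgr, EReal.toReal_coe, hz]
      simp [PiLp.inner_apply, Fin.sum_univ_two, u, v]
      ring
    have uniq : ∀ z, g z = 1 → z 0 = Real.log (u / (u + v)) →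
        z = WithLp.toLp 2 ![Real.log (u / (u + v)), Real.log (v / (u + v))] := by
      intro z hz h0
      have h := pt u v hu hv
      simp only [g, Matrix.cons_val_zero, Matrix.cons_val_one] at h hz
      rw [h0] at hz
      have h1 : z 1 = Real.log (v / (u + v)) := Real.exp_injective (by linarith)
      ext i
      fin_cases i
      · exact h0
      · exact h1
    refine ⟨_, ⟨pt u v hu hv, fun z hz => ?_⟩, fun z hz => ?_⟩
    · by_cases h0 : z 0 = Real.log (u / (u + v))
      · rw [uniq z hz h0]
      · rw [hD z hz, hD _ (pt u v hu hv)]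
        have := key hu hv hz h0
        simp only [Matrix.cons_val_zero, Matrix.cons_val_one]
        linarith
    · by_cases h0 : z 0 = Real.log (u / (u + v))
      · exact uniq z hz.1 h0
      · have h := hz.2 _ (pt u v hu hv)
        rw [hD z hz.1, hD _ (pt u v hu hv)] at h
        have := key hu hv hz.1 h0
        simp only [Matrix.cons_val_zero, Matrix.cons_val_one] at h
        linarith
  · intro hC
    have h1 := pt 1 2 one_pos two_pos
    have h2 := pt 2 1 two_pos one_pos
    have hne : (WithLp.toLp 2 ![Real.log (1 / (1 + 2)), Real.log (2 / (1 + 2))] :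
        EuclideanSpace ℝ (Fin 2)) ≠
        WithLp.toLp 2 ![Real.log (2 / (2 + 1)), Real.log (1 / (2 + 1))] := by
      intro h
      have := congrArg (fun z : EuclideanSpace ℝ (Fin 2) => Real.exp (z 0)) h
      simp only [Matrix.cons_val_zero] at this
      rw [Real.exp_log (by norm_num), Real.exp_log (by norm_num)] at this
      norm_num at this
    have h3 := hC h1 h2 (a := 1 / 2) (b := 1 / 2) (by norm_num) (by norm_num) (by norm_num)
    have h4 := sg.2 (mem_univ _) (mem_univ _) hne (by norm_num : (0 : ℝ) < 1 / 2)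
      (by norm_num : (0 : ℝ) < 1 / 2) (by norm_num)
    rw [mem_ofPred_eq] at h3
    rw [h1, h2, h3] at h4
    norm_num at h4

end Pool.Agent.Results.MP_bd7f44_an.NotConvex
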